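import Pool.Agent.W188.GP.Stm
import Pool.Agent.W338.QS.Line

/-! Project GP (owner helper188), part LOCB. -/

set_option autoImplicit false

open Complex MeasureTheory Set Filter Topology

namespace Pool.Agent.W91.GP

open Pool.Agent.W188.QS Pool.Agent.W188.GP

lemma log_diff {a b m : ℝ} (hm : 0 < m) (ha : m ≤ a) (hb : m ≤ b) :
    |Real.log (a / (2 * Real.pi)) - Real.log (b / (2 * Real.pi))| ≤ |a - b| / m := by
  have hp : (0 : ℝ) < 2 * Real.pi := by positivity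
  have ha0 : 0 < a := hm.trans_le ha
  have hb0 : 0 < b := hm.trans_le hb
  rw [Real.log_div ha0.ne' hp.ne', Real.log_div hb0.ne' hp.ne']
  have key : ∀ x y : ℝ, m ≤ x → m ≤ y → Real.log x - Real.log y ≤ |x - y| / m := by
    intro x y hx hy
    have hx0 : 0 < x := hm.trans_le hx
    have hy0 : 0 < y := hm.trans_le hy
    have h1 : Real.log x - Real.log y = Real.log (x / y) := (Real.log_div hx0.ne' hy0.ne').symm
    rw [h1]
    have h2 := Real.log_le_sub_one_of_pos (div_pos hx0 hy0)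
    have h3 : x / y - 1 = (x - y) / y := by field_simp
    rw [h3] at h2
    calc Real.log (x / y) ≤ (x - y) / y := h2
      _ ≤ |x - y| / y := div_le_div_of_nonneg_right (le_abs_self _) hy0.le
      _ ≤ |x - y| / m := div_le_div_of_nonneg_left (abs_nonneg _) hm hy
  rw [abs_le]
  have h1 := key a b ha hb
  have h2 := key b a hb ha
  rw [abs_sub_comm b a] at h2
  constructor <;> linarith

lemma mvt (h1 : StTau) {t₀ τ : ℝ} (hne : τ ≠ t₀) :
    ∃ ξ : ℝ, min t₀ τ ≤ ξ ∧ ξ ≤ max t₀ τ ∧ 2 * Real.pi * (vv τ - vv t₀) = lamE ξ * (τ - t₀) := by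
  obtain ⟨-, hvc, -, -, hder, -⟩ := h1
  have hp : (0 : ℝ) < 2 * Real.pi := by positivity
  rcases lt_or_gt_of_ne hne with h | h
  · obtain ⟨ξ, hξ, e⟩ := exists_hasDerivAt_eq_slope vv (fun t => lamE t / (2 * Real.pi)) h
      hvc.continuousOn (fun x _ => hder x)
    refine ⟨ξ, (min_le_right _ _).trans hξ.1.le, hξ.2.le.trans (le_max_left _ _), ?_⟩
    have h2 : t₀ - τ ≠ 0 := by linarith [sub_pos.mpr h]
    rw [div_eq_div_iff hp.ne' h2] at e
    linarith
  · obtain ⟨ξ, hξ, e⟩ := exists_hasDerivAt_eq_slope vv (fun t => lamE t / (2 * Real.pi)) h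
      hvc.continuousOn (fun x _ => hder x)
    refine ⟨ξ, (min_le_left _ _).trans hξ.1.le, hξ.2.le.trans (le_max_right _ _), ?_⟩
    have h2 : τ - t₀ ≠ 0 := by linarith [sub_pos.mpr h]
    rw [div_eq_div_iff hp.ne' h2] at e
    linarith

lemma term_bd (h1 : StTau) {T γ t₀ : ℝ} (hT : 200 ≤ T) (ht1 : T < t₀) (ht2 : t₀ ≤ 8 * T)
    (hne : ∀ n : ℤ, vv t₀ ≠ n + γ) {n : ℤ} (hn : n ∈ nd γ (T / 2) (16 * T)) :
    tau (n + γ) - t₀ ≠ 0 ∧ (n : ℝ) + γ - vv t₀ ≠ 0 ∧
    2 * Real.pi * |(n : ℝ) + γ - vv t₀| ≤ Real.log (16 * T) * |tau (n + γ) - t₀| ∧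
    |1 / (lam (tau (n + γ)) * (tau (n + γ) - t₀)) - 1 / (2 * Real.pi * ((n : ℝ) + γ - vv t₀))| ≤
      (2 * |tau (n + γ) - t₀| + 56) / (T * |tau (n + γ) - t₀|) := by
  have hmv := fun {τ : ℝ} (h : τ ≠ t₀) => mvt (t₀ := t₀) (τ := τ) h1 h
  obtain ⟨-, -, -, hlE, -, -, hvt, -, -, -, -, hl100, hnd⟩ := h1
  obtain ⟨hq, -⟩ := Pool.Agent.W338.QS.qs_line
  set τ := tau (n + γ) with hτdef
  have hτ := (hnd γ (T / 2) (16 * T) n).mp hn
  rw [← hτdef] at hτ
  have hv : vv τ = n + γ := hvt _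
  have hτne : τ ≠ t₀ := by
    intro h
    rw [h] at hv
    exact hne n hv
  have hd0 : τ - t₀ ≠ 0 := sub_ne_zero.mpr hτne
  have he0 : (n : ℝ) + γ - vv t₀ ≠ 0 := by
    intro h
    exact hne n (by linarith)
  obtain ⟨ξ, k1, k2, k3⟩ := hmv hτne
  rw [hv] at k3
  have hmin : T / 2 ≤ min t₀ τ := le_min (by linarith) hτ.1.le
  have hmax : max t₀ τ ≤ 16 * T := max_le (by linarith) hτ.2
  have hξ1 : T / 2 ≤ ξ := hmin.trans k1
  have hξ2 : ξ ≤ 16 * T := k2.trans hmax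
  have hξ100 : 100 ≤ ξ := by linarith
  have hτ100 : 100 ≤ τ := by linarith [hτ.1]
  have hξd : |ξ - τ| ≤ |τ - t₀| := by
    rcases le_total t₀ τ with h | h
    · rw [min_eq_left h] at k1
      rw [max_eq_right h] at k2
      rw [abs_of_nonneg (by linarith : 0 ≤ τ - t₀), abs_le]
      constructor <;> linarith
    · rw [min_eq_right h] at k1
      rw [max_eq_left h] at k2
      rw [abs_of_nonpos (by linarith : τ - t₀ ≤ 0), abs_le]
      constructor <;> linarith
  obtain ⟨l1, l2⟩ := hl100 ξ hξ100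
  have l3 := hlE ξ
  have l4 : Real.log ξ ≤ Real.log (16 * T) := Real.log_le_log (by linarith) hξ2
  have hτl : 1 ≤ lam τ := (hq τ (by linarith)).2.2
  have hdpos : 0 < |τ - t₀| := abs_pos.mpr hd0
  refine ⟨hd0, he0, ?_, ?_⟩
  · have e1 : 2 * Real.pi * |(n : ℝ) + γ - vv t₀| = |2 * Real.pi * ((n : ℝ) + γ - vv t₀)| := by
      rw [abs_mul, abs_of_pos (by positivity : (0 : ℝ) < 2 * Real.pi)]
    rw [e1, k3, abs_mul, abs_of_nonneg (by linarith : 0 ≤ lamE ξ)]
    exact mul_le_mul_of_nonneg_right (l2.trans l4) hdpos.le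
  · rw [k3]
    have hlpos : 0 < lam τ := by linarith
    have hEpos : 0 < lamE ξ := by linarith
    have e2 : 1 / (lam τ * (τ - t₀)) - 1 / (lamE ξ * (τ - t₀)) =
        (lamE ξ - lam τ) / (lam τ * lamE ξ * (τ - t₀)) := by
      field_simp
    have e3 : |lamE ξ - lam τ| ≤ (2 * |τ - t₀| + 56) / T := by
      rw [l1]
      have a1 := (hq ξ (by linarith)).2.1
      have a2 := (hq τ (by linarith)).2.1
      have a3 := log_diff (a := ξ) (b := τ) (m := T / 2) (by linarith) hξ1 hτ.1.le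
      have a4 : 14 / ξ ≤ 28 / T := by
        rw [div_le_div_iff₀ (by linarith) (by linarith)]; linarith
      have a5 : 14 / τ ≤ 28 / T := by
        rw [div_le_div_iff₀ (by linarith) (by linarith)]; linarith [hτ.1]
      have a6 : |ξ - τ| / (T / 2) ≤ 2 * |τ - t₀| / T := by
        have : |ξ - τ| / (T / 2) = 2 * |ξ - τ| / T := by field_simp
        rw [this]
        apply div_le_div_of_nonneg_right _ (by linarith)
        linarith
      have a7 : (2 * |τ - t₀| + 56) / T = 2 * |τ - t₀| / T + 28 / T + 28 / T := by ring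
      rw [a7]
      rw [abs_le] at a1 a2 a3 ⊢
      constructor <;> linarith [a1.1, a1.2, a2.1, a2.2, a3.1, a3.2]
    rw [e2, abs_div, abs_mul, abs_of_pos (mul_pos hlpos hEpos)]
    have e4 : (2 * |τ - t₀| + 56) / (T * |τ - t₀|) = ((2 * |τ - t₀| + 56) / T) / |τ - t₀| := by
      rw [div_div]
    rw [e4]
    apply div_le_div₀ (by positivity) e3 hdpos
    have : 1 ≤ lam τ * lamE ξ := one_le_mul_of_one_le_of_one_le hτl l3
    nlinarith

lemma sin_bd (x : ℝ) (n : ℤ) : |Real.sin (Real.pi * x)| ≤ Real.pi * |(n : ℝ) - x| := by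
  have h1 : Real.pi * x = n * Real.pi - Real.pi * (n - x) := by ring
  have h2 : Real.sin (Real.pi * x) = - (Real.cos (n * Real.pi) * Real.sin (Real.pi * (n - x))) := by
    rw [h1, Real.sin_sub, Real.sin_int_mul_pi]
    ring
  rw [h2, abs_neg, abs_mul, Real.abs_cos_int_mul_pi, one_mul]
  refine Real.abs_sin_le_abs.trans ?_
  rw [abs_mul, abs_of_pos Real.pi_pos]

lemma exp_bd (d : ℝ) : (2 * |d| + 56) * Real.exp (-d ^ 2) ≤ 60 * Real.exp (-d ^ 2 / 2) := by
  have h1 : Real.exp (-d ^ 2) = Real.exp (-d ^ 2 / 2) * Real.exp (-d ^ 2 / 2) := by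
    rw [← Real.exp_add]; ring_nf
  have h2 : (2 * |d| + 56) * Real.exp (-d ^ 2 / 2) ≤ 60 := by
    have h3 : 1 + d ^ 2 / 2 ≤ Real.exp (d ^ 2 / 2) := by
      have := Real.add_one_le_exp (d ^ 2 / 2)
      linarith
    have h4 : 2 * |d| + 56 ≤ 60 * Real.exp (d ^ 2 / 2) := by
      have : |d| ^ 2 = d ^ 2 := sq_abs d
      nlinarith [sq_nonneg (|d| - 1)]
    have h5 : Real.exp (d ^ 2 / 2) * Real.exp (-d ^ 2 / 2) = 1 := by
      rw [← Real.exp_add]; ring_nf; exact Real.exp_zero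
    calc (2 * |d| + 56) * Real.exp (-d ^ 2 / 2) ≤
        (60 * Real.exp (d ^ 2 / 2)) * Real.exp (-d ^ 2 / 2) :=
          mul_le_mul_of_nonneg_right h4 (Real.exp_pos _).le
      _ = 60 := by rw [mul_assoc, h5, mul_one]
  rw [h1, ← mul_assoc]
  exact mul_le_mul_of_nonneg_right h2 (Real.exp_pos _).le

theorem gp_locb (h1 : Pool.Agent.W188.GP.StTau) (h2 : Pool.Agent.W188.GP.StLoc) :
    Pool.Agent.W188.GP.StLocB := by
  obtain ⟨C, T₀, hC⟩ := h2
  refine ⟨max 120 C, max T₀ 200, ?_⟩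
  intro T γ t₀ hT ht1 ht2 hne
  have hT0 : T₀ ≤ T := (le_max_left _ _).trans hT
  have hT200 : 200 ≤ T := (le_max_right _ _).trans hT
  have hmain := hC T γ t₀ hT0 ht1 ht2 hne
  set S := nd γ (T / 2) (16 * T) with hS
  set sn : ℝ := Real.sin (Real.pi * (vv t₀ - γ)) with hsn
  set a : ℤ → ℂ := fun n => riemannZeta (cp (tau (n + γ))) *
    (Real.exp (-(tau (n + γ) - t₀) ^ 2) : ℂ) with ha
  have hlog : Real.log (16 * T) ≤ 2 * Real.log T := by
    have : 2 * Real.log T = Real.log (T ^ 2) := by rw [Real.log_pow]; norm_num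
    rw [this]
    apply Real.log_le_log (by linarith)
    nlinarith
  have hlogT : 0 < Real.log T := Real.log_pos (by linarith)
  have hp : (0 : ℝ) < 2 * Real.pi := by positivity
  -- the identity
  have hid : ∑ n ∈ S, riemannZeta (cp (tau (n + γ))) *
      (Real.exp (-(tau (n + γ) - t₀) ^ 2) : ℂ) /
      ((lam (tau (n + γ)) : ℂ) * (tau (n + γ) - t₀ : ℝ)) =
      ((1 / (2 * Real.pi) : ℝ) : ℂ) * (∑ n ∈ S, riemannZeta (cp (tau (n + γ))) *
      (Real.exp (-(tau (n + γ) - t₀) ^ 2) : ℂ) / ((n : ℂ) + γ - vv t₀)) +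
      ∑ n ∈ S, a n * ((1 / (lam (tau (n + γ)) * (tau (n + γ) - t₀)) -
        1 / (2 * Real.pi * ((n : ℝ) + γ - vv t₀)) : ℝ) : ℂ) := by
    rw [Finset.mul_sum, ← Finset.sum_add_distrib]
    refine Finset.sum_congr rfl fun n hn => ?_
    obtain ⟨hd, he, -, -⟩ := term_bd h1 hT200 ht1 ht2 hne hn
    have hl : (lam (tau (n + γ)) : ℂ) ≠ 0 := by
      have hq := Pool.Agent.W338.QS.qs_line.1
      have hτ := (h1.2.2.2.2.2.2.2.2.2.2.2.2 γ (T / 2) (16 * T) n).mp hn
      have := (hq (tau (n + γ)) (by linarith [hτ.1])).2.2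
      exact_mod_cast (by linarith : lam (tau (n + γ)) ≠ 0)
    have he' : (n : ℂ) + γ - vv t₀ ≠ 0 := by exact_mod_cast he
    have hd' : ((tau (n + γ) : ℝ) : ℂ) - (t₀ : ℂ) ≠ 0 := by exact_mod_cast hd
    have hpi : (Real.pi : ℂ) ≠ 0 := by exact_mod_cast Real.pi_pos.ne'
    simp only [ha]
    push_cast
    field_simp
    ring
  have hb : ‖∑ n ∈ S, a n * ((1 / (lam (tau (n + γ)) * (tau (n + γ) - t₀)) -
        1 / (2 * Real.pi * ((n : ℝ) + γ - vv t₀)) : ℝ) : ℂ)‖ * (2 * |sn|) ≤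
      120 * Real.log T / T * ∑ n ∈ S, ZZ (tau (n + γ)) * Real.exp (-(tau (n + γ) - t₀) ^ 2 / 2) := by
    calc _ ≤ (∑ n ∈ S, ‖a n * ((1 / (lam (tau (n + γ)) * (tau (n + γ) - t₀)) -
        1 / (2 * Real.pi * ((n : ℝ) + γ - vv t₀)) : ℝ) : ℂ)‖) * (2 * |sn|) :=
          mul_le_mul_of_nonneg_right (norm_sum_le _ _) (by positivity)
      _ ≤ _ := by
        rw [Finset.sum_mul, Finset.mul_sum]
        refine Finset.sum_le_sum fun n hn => ?_
        obtain ⟨hd, he, h3, h4⟩ := term_bd h1 hT200 ht1 ht2 hne hn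
        have hdpos : 0 < |tau (n + γ) - t₀| := abs_pos.mpr hd
        rw [norm_mul, Complex.norm_real, Real.norm_eq_abs]
        have e1 : ‖a n‖ = ZZ (tau (n + γ)) * Real.exp (-(tau (n + γ) - t₀) ^ 2) := by
          simp only [ha]
          rw [norm_mul, Complex.norm_real, Real.norm_eq_abs, abs_of_pos (Real.exp_pos _)]
          rfl
        have hZ : 0 ≤ ZZ (tau (n + γ)) := norm_nonneg _
        have e2 : 2 * |sn| ≤ Real.log (16 * T) * |tau (n + γ) - t₀| := by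
          have h5 := sin_bd (vv t₀ - γ) n
          have h6 : (n : ℝ) - (vv t₀ - γ) = n + γ - vv t₀ := by ring
          rw [h6, ← hsn] at h5
          linarith
        have e3 : |1 / (lam (tau (n + γ)) * (tau (n + γ) - t₀)) -
            1 / (2 * Real.pi * ((n : ℝ) + γ - vv t₀))| * (2 * |sn|) ≤
            2 * Real.log T / T * (2 * |tau (n + γ) - t₀| + 56) := by
          calc _ ≤ ((2 * |tau (n + γ) - t₀| + 56) / (T * |tau (n + γ) - t₀|)) *
                (Real.log (16 * T) * |tau (n + γ) - t₀|) :=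
                mul_le_mul h4 e2 (by positivity) (by positivity)
            _ = Real.log (16 * T) * ((2 * |tau (n + γ) - t₀| + 56) / T) := by
              field_simp
            _ ≤ (2 * Real.log T) * ((2 * |tau (n + γ) - t₀| + 56) / T) :=
              mul_le_mul_of_nonneg_right hlog (by positivity)
            _ = _ := by ring
        rw [e1]
        calc ZZ (tau (n + γ)) * Real.exp (-(tau (n + γ) - t₀) ^ 2) *
              |1 / (lam (tau (n + γ)) * (tau (n + γ) - t₀)) -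
                1 / (2 * Real.pi * ((n : ℝ) + γ - vv t₀))| * (2 * |sn|)
            = (ZZ (tau (n + γ)) * Real.exp (-(tau (n + γ) - t₀) ^ 2)) *
              (|1 / (lam (tau (n + γ)) * (tau (n + γ) - t₀)) -
                1 / (2 * Real.pi * ((n : ℝ) + γ - vv t₀))| * (2 * |sn|)) := by ring
          _ ≤ (ZZ (tau (n + γ)) * Real.exp (-(tau (n + γ) - t₀) ^ 2)) *
              (2 * Real.log T / T * (2 * |tau (n + γ) - t₀| + 56)) :=
            mul_le_mul_of_nonneg_left e3 (by positivity)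
          _ = (2 * Real.log T / T * ZZ (tau (n + γ))) * ((2 * |tau (n + γ) - t₀| + 56) *
              Real.exp (-(tau (n + γ) - t₀) ^ 2)) := by ring
          _ ≤ (2 * Real.log T / T * ZZ (tau (n + γ))) *
              (60 * Real.exp (-(tau (n + γ) - t₀) ^ 2 / 2)) :=
            mul_le_mul_of_nonneg_left (exp_bd _) (by positivity)
          _ = _ := by ring
  rw [hid] at hmain
  set S2 : ℂ := ∑ n ∈ S, riemannZeta (cp (tau (n + γ))) *
      (Real.exp (-(tau (n + γ) - t₀) ^ 2) : ℂ) / ((n : ℂ) + γ - vv t₀) with hS2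
  set S3 : ℂ := ∑ n ∈ S, a n * ((1 / (lam (tau (n + γ)) * (tau (n + γ) - t₀)) -
        1 / (2 * Real.pi * ((n : ℝ) + γ - vv t₀)) : ℝ) : ℂ) with hS3
  set S4 : ℝ := ∑ n ∈ S, ZZ (tau (n + γ)) * Real.exp (-(tau (n + γ) - t₀) ^ 2 / 2) with hS4
  have hS4n : 0 ≤ S4 := Finset.sum_nonneg fun n _ => mul_nonneg (norm_nonneg _) (Real.exp_pos _).le
  have g1 : ‖((1 / (2 * Real.pi) : ℝ) : ℂ) * S2 + S3‖ ≤ 1 / (2 * Real.pi) * ‖S2‖ + ‖S3‖ := by
    refine (norm_add_le _ _).trans ?_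
    rw [norm_mul, Complex.norm_real, Real.norm_eq_abs, abs_of_pos (by positivity)]
  have g2 : 2 * |sn| * ‖((1 / (2 * Real.pi) : ℝ) : ℂ) * S2 + S3‖ ≤
      2 * |sn| * (1 / (2 * Real.pi) * ‖S2‖ + ‖S3‖) := mul_le_mul_of_nonneg_left g1 (by positivity)
  have g3 : 2 * |sn| * (1 / (2 * Real.pi) * ‖S2‖) ≤ |sn| * ‖S2‖ := by
    have e : 2 * |sn| * (1 / (2 * Real.pi) * ‖S2‖) = (|sn| * ‖S2‖) * (1 / Real.pi) := by
      field_simp
    rw [e]
    apply mul_le_of_le_one_right (by positivity)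
    rw [div_le_one Real.pi_pos]
    linarith [Real.pi_gt_three]
  have g4 : ‖(sn : ℂ) * S2‖ = |sn| * ‖S2‖ := by
    rw [norm_mul, Complex.norm_real, Real.norm_eq_abs]
  have g5 : 120 * Real.log T / T * S4 ≤ max 120 C * Real.log T / T * S4 := by
    apply mul_le_mul_of_nonneg_right _ hS4n
    apply div_le_div_of_nonneg_right _ (by linarith)
    exact mul_le_mul_of_nonneg_right (le_max_left _ _) hlogT.le
  rw [g4]
  linarith [le_max_right 120 C]

end Pool.Agent.W91.GP
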